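import Pool.Agent.H46.EXC.Stmts

set_option autoImplicit false

namespace Pool.EXC

open Finset

lemma nex_aux (x : ℝ) (hx : 0 < x) (hx6 : x ≤ 6) :
    ∃ d : ℕ, 3 ≤ (2 : ℝ) ^ d * x ∧ (2 : ℝ) ^ d * x ≤ 6 := by
  classical
  have hex : ∃ d : ℕ, 3 ≤ (2 : ℝ) ^ d * x := by
    obtain ⟨d, hd⟩ := pow_unbounded_of_one_lt (3 / x) (one_lt_two : (1 : ℝ) < 2)
    refine ⟨d, ?_⟩
    rw [div_lt_iff₀ hx] at hd
    exact hd.le
  refine ⟨Nat.find hex, Nat.find_spec hex, ?_⟩
  rcases Nat.eq_zero_or_pos (Nat.find hex) with h | h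
  · rw [h]
    linarith
  · obtain ⟨m, hm⟩ := Nat.exists_eq_succ_of_ne_zero h.ne'
    have h1 := Nat.find_min hex (m := m) (by omega)
    rw [hm, pow_succ]
    push Not at h1
    linarith

theorem nex_thm : S_NEX := by
  intro n γ hn hγ hsum
  have hn0 : (0 : ℝ) < n := by exact_mod_cast hn
  have hn1 : (1 : ℝ) ≤ n := by exact_mod_cast hn
  have h1n : (1 : ℝ) / n ≤ 1 := by
    rw [div_le_one hn0]
    exact hn1
  have hpos : ∀ k, 0 < max (γ k) (1 / n) := fun k => lt_of_lt_of_le (by positivity) (le_max_right _ _)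
  have hle : ∀ k, max (γ k) (1 / n) ≤ 6 := by
    intro k
    have h1 : γ k ≤ ∑ k, γ k := Finset.single_le_sum (fun i _ => hγ i) (Finset.mem_univ k)
    exact max_le (by linarith) (by linarith)
  choose d hd using fun k => nex_aux (max (γ k) (1 / n)) (hpos k) (hle k)
  refine ⟨d, ?_, ?_⟩
  · have h1 : ∀ k, (1 / 2 : ℝ) ^ d k ≤ (γ k + 1 / n) / 3 := by
      intro k
      have h2 := (hd k).1
      have h3 : max (γ k) (1 / n) ≤ γ k + 1 / n := by
        have h4 : (0 : ℝ) ≤ 1 / n := by positivity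
        exact max_le (by linarith) (by linarith [hγ k])
      have h4 : (0 : ℝ) < 2 ^ d k := by positivity
      have h5 : 0 < γ k + 1 / (n : ℝ) := lt_of_lt_of_le (hpos k) h3
      rw [one_div, inv_pow, inv_le_comm₀ h4 (by linarith)]
      rw [inv_div, div_le_iff₀ h5]
      calc (3 : ℝ) ≤ 2 ^ d k * max (γ k) (1 / n) := h2
        _ ≤ 2 ^ d k * (γ k + 1 / n) := by gcongr
    calc ∑ k, (1 / 2 : ℝ) ^ d k ≤ ∑ k, (γ k + 1 / n) / 3 := Finset.sum_le_sum fun k _ => h1 k
      _ = (∑ k, γ k + 1) / 3 := by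
          rw [← Finset.sum_div, Finset.sum_add_distrib]
          congr 2
          rw [Finset.sum_const, Finset.card_univ, Fintype.card_fin, nsmul_eq_mul]
          field_simp
      _ ≤ 1 := by linarith
  · intro k
    have h2 := (hd k).2
    have h4 : (0 : ℝ) < 2 ^ d k := by positivity
    constructor
    · exact (mul_le_mul_of_nonneg_left (le_max_left _ _) h4.le).trans h2
    · have h5 := (mul_le_mul_of_nonneg_left (le_max_right (γ k) (1 / n)) h4.le).trans h2
      rw [mul_one_div, div_le_iff₀ hn0] at h5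
      exact h5

end Pool.EXC
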